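import Mathlib
import Pool.Agent.W262.SQ.All
import Pool.Agent.W262.SQ.DefS
import Pool.Agent.W756.SH.Twi
import Pool.Agent.W509.SH.Lat
import Pool.Agent.W352.SH.Grp

/-!
# The dimension of `H¹_f(ℚ, V₂ A_E)` for all elliptic curves `E` with full rational 2-torsion

Let `ρ` be a homomorphism of `{±1}^l` to `GL_d(ℤ)`, `d ≥ 1`, and let `D_1, ..., D_l` be nonzero
integers. For an elliptic curve `E` over `ℚ` let `A_E` be the twist of `E ^ d` by the composition of
`Gal(ℚ̄/ℚ) → {±1}^l` (the signs on the square roots of the `D_i`) with `ρ`, an abelian variety of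
dimension `d` over `ℚ`. The average of `4 ^ (r_E / d)` over all elliptic curves `E` over `ℚ` with
full rational 2-torsion, ordered by the discriminant, is at most `C * 128 ^ n`, where the Selmer
group `Sel_{2^∞}(A_E/ℚ)` contains `(ℤ/2^(l+1))^(r_E)`, `n` is the number of the primes that divide
`D_1 ⋯ D_l` and `C` is an absolute constant.
-/

namespace Pool.Agent.Results.MP_009fd8_ag.SelmerAllCurves

open Finset

open Pool.Agent.W262.SH (E Rep HasZ)

open Pool.Agent.W262.SQ (SelAb)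

/-- The pairs `0 < a < b` of integers with squarefree gcd such that the discriminant
`16 (a b (b - a)) ^ 2` of the equation `y² = x (x - a) (x - b)` is at most `Z`. (The bounds
`a, b ≤ Z` follow. Every elliptic curve over `ℚ` with full rational 2-torsion is isomorphic to
`y² = x (x - a) (x - b)` for exactly one pair `0 < a < b` with squarefree gcd.) -/
def Fam (Z : ℕ) : Finset (ℕ × ℕ) :=
  (Icc 1 Z ×ˢ Icc 1 Z).filter (fun t => t.1 < t.2 ∧ Squarefree (t.1.gcd t.2) ∧
    16 * (t.1 * t.2 * (t.2 - t.1)) ^ 2 ≤ Z)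

/-- **Theorem.** The average of `4 ^ (r_E / dim A_E)` over the elliptic curves `E` over `ℚ` with
full rational 2-torsion is bounded, `r_E` the corank of the 2-power Selmer group of `A_E`. -/
theorem result : ∃ C : ℝ, ∀ (l d : ℕ) (D : Fin l → ℤ) (ρ : Rep l d), 0 < d → (∀ i, D i ≠ 0) →
    ∀ (Z : ℕ) (r : ℕ × ℕ → ℕ),
    (∀ t ∈ Fam Z, HasZ (SelAb (E t.1 t.2) D ρ) (2 ^ (l + 1)) (r t)) →
    ∑ t ∈ Fam Z, (4 : ℝ) ^ ((r t : ℝ) / d) ≤
      C * 128 ^ (∏ i, D i).natAbs.primeFactors.card * (Fam Z).card := by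
  obtain ⟨C, -, hC⟩ := Pool.Agent.W262.SQ.selA_fam Pool.Agent.W307.FK.expf
    Pool.Agent.W509.SH.lat Pool.Agent.W756.SH.Twi.twi Pool.Agent.W352.SH.grp
  exact ⟨C, fun l d D ρ hd hD Z r hr => hC l d D ρ hd hD Z r
    (fun t ht => (Pool.Agent.W262.SQ.has_selAb _ _ _ _ _).1 (hr t ht))⟩

end Pool.Agent.Results.MP_009fd8_ag.SelmerAllCurves
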